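import Pool.Agent.H18.QGR.Stmts

/-!
# Row CBD of the board `qgr`
-/

set_option autoImplicit false

noncomputable section

namespace Pool.QGR

open Pool.CGR

namespace CBDa

variable {m : ℕ}

theorem l1_nonneg (f : E m) : 0 ≤ l1 f := by
  unfold l1 Finsupp.sum
  exact Finset.sum_nonneg fun _ _ => norm_nonneg _

theorem l1_single (w : List (Fin m)) (r : ℂ) : l1 (Finsupp.single w r) = ‖r‖ := by
  unfold l1
  exact Finsupp.sum_single_index (h := fun (_ : List (Fin m)) (r : ℂ) => ‖r‖) norm_zero

theorem l1_of_subset (f : E m) (s : Finset (List (Fin m))) (h : f.support ⊆ s) :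
    l1 f = ∑ w ∈ s, ‖f w‖ := by
  unfold l1
  exact Finsupp.sum_of_support_subset f h _ (fun _ _ => norm_zero)

theorem l1_add (f g : E m) : l1 (f + g) ≤ l1 f + l1 g := by
  classical
  have h1 := l1_of_subset f (f.support ∪ g.support) Finset.subset_union_left
  have h2 := l1_of_subset g (f.support ∪ g.support) Finset.subset_union_right
  have h3 := l1_of_subset (f + g) (f.support ∪ g.support) Finsupp.support_add
  rw [h1, h2, h3, ← Finset.sum_add_distrib]
  exact Finset.sum_le_sum fun w _ => norm_add_le _ _

theorem l1_zero : l1 (0 : E m) = 0 := by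
  unfold l1
  exact Finsupp.sum_zero_index

theorem l1_sum {ι : Type} (s : Finset ι) (f : ι → E m) : l1 (∑ i ∈ s, f i) ≤ ∑ i ∈ s, l1 (f i) := by
  classical
  induction s using Finset.induction_on with
  | empty => rw [Finset.sum_empty, Finset.sum_empty, l1_zero]
  | insert a s ha ih =>
    rw [Finset.sum_insert ha, Finset.sum_insert ha]
    exact (l1_add _ _).trans (add_le_add le_rfl ih)

theorem l1_smul (r : ℂ) (f : E m) : l1 (r • f) = ‖r‖ * l1 f := by
  classical
  have h3 := l1_of_subset (r • f) f.support Finsupp.support_smul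
  have h1 := l1_of_subset f f.support (Finset.Subset.refl _)
  rw [h3, h1, Finset.mul_sum]
  exact Finset.sum_congr rfl fun w _ => by
    rw [Finsupp.smul_apply, smul_eq_mul, norm_mul]

theorem apply_le (f : E m) (w : List (Fin m)) : ‖f w‖ ≤ l1 f := by
  classical
  by_cases h : w ∈ f.support
  · unfold l1 Finsupp.sum
    exact Finset.single_le_sum (f := fun w => ‖f w‖) (fun _ _ => norm_nonneg _) h
  · rw [Finsupp.notMem_support_iff.1 h, norm_zero]
    exact l1_nonneg f

theorem om_le {q : Fin m → Fin m → ℝ} {Q : ℝ} (h : SQ q Q) (j : Fin m) (u : List (Fin m)) :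
    ‖om q j u‖ ≤ Q ^ u.length := by
  unfold om
  induction u with
  | nil => simp
  | cons a u ih =>
    rw [List.map_cons, List.prod_cons, norm_mul, List.length_cons, pow_succ, mul_comm]
    refine mul_le_mul ih ?_ (norm_nonneg _) (pow_nonneg h.nonneg _)
    rw [Complex.norm_real]
    exact h.bdd j a

theorem tr_succ (k : ℕ) : tr (k + 1) = (k + 1) + tr k := by
  unfold tr
  have h1 : (k + 1) * (k + 1 + 1) = k * (k + 1) + 2 * (k + 1) := by ring
  rw [h1, Nat.add_mul_div_left _ _ (by norm_num)]
  ring

theorem pr_le {q : Fin m → Fin m → ℝ} {Q : ℝ} (h : SQ q Q) (w : List (Fin m)) :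
    ∀ a : Fin m, ‖pr q (a :: w)‖ ≤ Q ^ tr w.length := by
  induction w with
  | nil =>
    intro a
    simp [pr, om, tr]
  | cons b w ih =>
    intro a
    rw [pr, norm_mul, List.length_cons, tr_succ, pow_add]
    exact mul_le_mul (om_le h a (b :: w)) (ih b) (norm_nonneg _) (pow_nonneg h.nonneg _)

/-- the summands of `ar` -/
theorem ar_apply (q : Fin m → Fin m → ℝ) (p : Fin m) (f : E m) :
    ar q p f = ∑ w ∈ f.support, f w • ∑ k ∈ Finset.range w.length,
      if w[k]? = some p then Finsupp.single (w.eraseIdx k) (om q p (w.drop (k + 1))) else 0 := by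
  unfold ar
  rw [Finsupp.linearCombination_apply]
  rfl

theorem ar_le {q : Fin m → Fin m → ℝ} {Q : ℝ} (h : SQ q Q) (p : Fin m) (f : E m) :
    l1 (ar q p f) ≤ 1 / (1 - Q) * l1 f := by
  have hQ : 0 < 1 - Q := by linarith [h.lt]
  rw [ar_apply]
  refine (l1_sum _ _).trans ?_
  have hl : l1 f = ∑ w ∈ f.support, ‖f w‖ := rfl
  rw [hl, Finset.mul_sum]
  refine Finset.sum_le_sum fun w _ => ?_
  rw [l1_smul, mul_comm]
  refine mul_le_mul_of_nonneg_right ?_ (norm_nonneg _)
  refine (l1_sum _ _).trans ?_
  have h1 : ∀ k ∈ Finset.range w.length,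
      l1 (if w[k]? = some p then Finsupp.single (w.eraseIdx k) (om q p (w.drop (k + 1))) else 0) ≤
        Q ^ (w.length - 1 - k) := by
    intro k hk
    split_ifs with hc
    · rw [l1_single]
      refine (om_le h _ _).trans (le_of_eq ?_)
      rw [List.length_drop]
      congr 1
      omega
    · rw [l1_zero]
      exact pow_nonneg h.nonneg _
  refine (Finset.sum_le_sum h1).trans ?_
  rw [Finset.sum_range_reflect (fun k => Q ^ k) w.length, geom_sum_eq h.lt.ne]
  have h2 : 0 ≤ Q ^ w.length := pow_nonneg h.nonneg _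
  have h3 : (Q ^ w.length - 1) / (Q - 1) = (1 - Q ^ w.length) / (1 - Q) := by
    rw [← neg_sub (1 : ℝ) (Q ^ w.length), ← neg_sub (1 : ℝ) Q, neg_div_neg_eq]
  rw [h3]
  exact div_le_div_of_nonneg_right (by linarith) hQ.le

theorem Ar_le {q : Fin m → Fin m → ℝ} {Q : ℝ} (h : SQ q Q) (v : List (Fin m)) (f : E m) :
    l1 (Ar q v f) ≤ (1 / (1 - Q)) ^ v.length * l1 f := by
  have hQ : 0 < 1 - Q := by linarith [h.lt]
  induction v with
  | nil =>
    rw [Ar, List.length_nil, pow_zero, one_mul]
    exact le_rfl
  | cons a v ih =>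
    rw [Ar, LinearMap.comp_apply, List.length_cons, pow_succ, mul_comm ((1 / (1 - Q)) ^ v.length),
      mul_assoc]
    exact (ar_le h a _).trans (mul_le_mul_of_nonneg_left ih (by positivity))

/-- degrees -/
theorem Ar_deg (q : Fin m → Fin m → ℝ) (u : List (Fin m)) (v : List (Fin m)) :
    ∀ w : List (Fin m), Ar q v (Finsupp.single u 1) w ≠ 0 → w.length + v.length = u.length := by
  induction v with
  | nil =>
    intro w hw
    rw [Ar, LinearMap.id_apply] at hw
    by_contra hne
    apply hw
    rw [Finsupp.single_apply, if_neg]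
    rintro rfl
    exact hne (by simp)
  | cons a v ih =>
    intro w hw
    rw [Ar, LinearMap.comp_apply, ar_apply, Finsupp.finsetSum_apply] at hw
    obtain ⟨w', hw', h1⟩ := Finset.exists_ne_zero_of_sum_ne_zero hw
    rw [Finsupp.smul_apply, Finsupp.finsetSum_apply, smul_eq_mul] at h1
    obtain ⟨k, hk, h2⟩ := Finset.exists_ne_zero_of_sum_ne_zero (right_ne_zero_of_mul h1)
    have h3 := ih w' (Finsupp.mem_support_iff.1 hw')
    have hk' := Finset.mem_range.1 hk
    split_ifs at h2 with hc
    · rw [Finsupp.single_apply] at h2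
      split_ifs at h2 with he
      · rw [← he, List.length_eraseIdx_of_lt hk', List.length_cons]
        omega
      · exact absurd rfl h2
    · exact absurd rfl h2

end CBDa

open CBDa in
/-- Row CBD. -/
theorem cbd_thm (h1 : DFOStmt) : CBDStmt := by
  intro m q Q h i w
  have hQ : 0 < 1 - Q := by linarith [h.lt]
  have hb : 0 ≤ Q ^ tr (w.length / 2) * (1 / (1 - Q)) ^ (w.length / 2) := by
    have := h.nonneg
    positivity
  rw [h1 m q h.symm i w, Ge, Finsupp.finsetSum_apply]
  have hz : ∀ k ∈ Finset.range w.length, 2 * k + 1 ≠ w.length →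
      (if w[k]? = some i then ((-1 : ℂ) ^ (w.length - 1 - k) * pr q (w.drop k)) •
        Ar q (w.drop (k + 1)) (Finsupp.single (w.take k) 1) else 0 : E m) [] = 0 := by
    intro k hk hne
    have hk' := Finset.mem_range.1 hk
    split_ifs with hc
    · rw [Finsupp.smul_apply]
      by_contra hcon
      have h2 := Ar_deg q (w.take k) (w.drop (k + 1)) [] (fun h0 => hcon (by rw [h0, smul_zero]))
      rw [List.length_nil, List.length_drop, List.length_take] at h2
      apply hne
      omega
    · rfl
  by_cases hodd : 2 * (w.length / 2) + 1 = w.length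
  · have hmem : w.length / 2 ∈ Finset.range w.length := Finset.mem_range.2 (by omega)
    rw [Finset.sum_eq_single_of_mem (w.length / 2) hmem (fun k hk hne => hz k hk (by omega))]
    set k := w.length / 2 with hk
    split_ifs with hc
    · have hlt : k < w.length := Finset.mem_range.1 hmem
      have hd : w.drop k = w[k] :: w.drop (k + 1) := List.drop_eq_getElem_cons hlt
      have hlen : (w.drop (k + 1)).length = k := by
        rw [List.length_drop]
        omega
      rw [Finsupp.smul_apply, smul_eq_mul, norm_mul, norm_mul, norm_pow, norm_neg, norm_one,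
        one_pow, one_mul]
      have e1 : ‖pr q (w.drop k)‖ ≤ Q ^ tr k := by
        rw [hd]
        have := pr_le h (w.drop (k + 1)) w[k]
        rwa [hlen] at this
      have e2 : ‖Ar q (w.drop (k + 1)) (Finsupp.single (w.take k) 1) []‖ ≤
          (1 / (1 - Q)) ^ k := by
        refine (apply_le _ _).trans ((Ar_le h _ _).trans (le_of_eq ?_))
        rw [l1_single, norm_one, mul_one, hlen]
      exact mul_le_mul e1 e2 (norm_nonneg _) (pow_nonneg h.nonneg _)
    · rw [Finsupp.zero_apply, norm_zero]
      exact hb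
  · rw [Finset.sum_eq_zero (fun k hk => hz k hk (by omega)), norm_zero]
    exact hb

end Pool.QGR
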